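import Pool.Agent.K1H62.MC.Plan

set_option autoImplicit false

/-!
# The scalar curvature is not negative (piece MC-RPOS)
-/

namespace Pool.Agent.K1H61.MC

open MeasureTheory Filter Topology Pool.Agent.K1H62.MC
open scoped ENNReal ContDiff

noncomputable section

/-! ### the inequality -/

/-- one summand -/
lemma summand {B K t Q U A C c g h e : ℝ} (hB : 1 ≤ B) (hK : 0 < K) (ht : 0 < t)
    (hQ1 : 1 ≤ Q) (hQ2 : Q ≤ 2) (hU : |U| ≤ 1) (he : |e - 1| ≤ 4 * t * B) (htB : 8 * t * B ≤ 1)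
    (hA : |A| ≤ 2 * B) (hC : |C| ≤ 5 * B ^ 2) (hc : |c| ≤ 6 * B) (hg : |g| ≤ B) (hh : |h| ≤ B) :
    e * (t * A - 8 * K * t ^ 2 * (g ^ 2 + U * h) * Q + t * (-4 * K * t ^ 2 * U * g * Q) * c + t ^ 2 * C)
      ≤ t * A - 8 * K * t ^ 2 * Q * U * h - 4 * K * t ^ 2 * g ^ 2 + 8 * t ^ 2 * B ^ 2
        + 64 * K * t ^ 3 * B ^ 2 + 72 * K * B ^ 2 * t ^ 3 + 15 / 2 * B ^ 2 * t ^ 2 := by
  have hB0 : 0 < B := by linarith
  have hQ0 : 0 < Q := by linarith
  have he1 : |e - 1| ≤ 1 / 2 := by linarith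
  have he2 : 1 / 2 ≤ e := by have := (abs_le.1 he1).1; linarith
  have he3 : |e| ≤ 3 / 2 := by
    rw [abs_le] at he1 ⊢
    constructor <;> linarith [he1.1, he1.2]
  have hX : e * (t * A) ≤ t * A + 8 * t ^ 2 * B ^ 2 := by
    have h1 : (e - 1) * A ≤ 4 * t * B * (2 * B) := by
      refine (le_abs_self _).trans ?_
      rw [abs_mul]
      exact mul_le_mul he hA (abs_nonneg _) (by positivity)
    have h2 := mul_le_mul_of_nonneg_left h1 ht.le
    nlinarith
  have hY : -(e * (8 * K * t ^ 2 * g ^ 2 * Q)) ≤ -(4 * K * t ^ 2 * g ^ 2) := by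
    have h1 : 1 / 2 ≤ e * Q := by nlinarith
    have h2 : 0 ≤ 8 * K * t ^ 2 * g ^ 2 := by positivity
    nlinarith [mul_le_mul_of_nonneg_left h1 h2]
  have hZ : -(e * (8 * K * t ^ 2 * (U * h) * Q)) ≤ -(8 * K * t ^ 2 * Q * U * h)
      + 64 * K * t ^ 3 * B ^ 2 := by
    have h1 : -((e - 1) * U * h * Q) ≤ 4 * t * B * 1 * B * 2 := by
      refine (neg_le_abs _).trans ?_
      rw [abs_mul, abs_mul, abs_mul]
      have : |Q| ≤ 2 := by rw [abs_of_pos hQ0]; exact hQ2
      exact mul_le_mul (mul_le_mul (mul_le_mul he hU (abs_nonneg _) (by positivity)) hh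
        (abs_nonneg _) (by positivity)) this (abs_nonneg _) (by positivity)
    have h2 : 0 ≤ 8 * K * t ^ 2 := by positivity
    nlinarith [mul_le_mul_of_nonneg_left h1 h2]
  have hW : e * (t * (-4 * K * t ^ 2 * U * g * Q) * c) ≤ 72 * K * B ^ 2 * t ^ 3 := by
    have h1 : -(e * U * g * Q * c) ≤ 3 / 2 * 1 * B * 2 * (6 * B) := by
      refine (neg_le_abs _).trans ?_
      rw [abs_mul, abs_mul, abs_mul, abs_mul]
      have : |Q| ≤ 2 := by rw [abs_of_pos hQ0]; exact hQ2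
      exact mul_le_mul (mul_le_mul (mul_le_mul (mul_le_mul he3 hU (abs_nonneg _) (by positivity)) hg
        (abs_nonneg _) (by positivity)) this (abs_nonneg _) (by positivity)) hc (abs_nonneg _)
        (by positivity)
    have h2 : 0 ≤ 4 * K * t ^ 3 := by positivity
    nlinarith [mul_le_mul_of_nonneg_left h1 h2]
  have hV : e * (t ^ 2 * C) ≤ 15 / 2 * B ^ 2 * t ^ 2 := by
    have h1 : e * C ≤ 3 / 2 * (5 * B ^ 2) := by
      refine (le_abs_self _).trans ?_
      rw [abs_mul]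
      exact mul_le_mul he3 hC (abs_nonneg _) (by positivity)
    have h2 : 0 ≤ t ^ 2 := by positivity
    nlinarith [mul_le_mul_of_nonneg_left h1 h2]
  nlinarith

/-- the sum of the three summands is not positive -/
lemma total {B K m t Q U : ℝ} {A C c g h e : Fin 3 → ℝ} (hB : 1 ≤ B) (hK : 0 < K) (ht : 0 < t)
    (hKm : 50 * B ^ 2 ≤ K * m) (htK : 3 * K * t ≤ 1)
    (hQ1 : 1 ≤ Q) (hQ2 : Q ≤ 2) (hU : |U| ≤ 1) (he : ∀ j, |e j - 1| ≤ 4 * t * B) (htB : 8 * t * B ≤ 1)
    (hA : ∀ j, |A j| ≤ 2 * B) (hC : ∀ j, |C j| ≤ 5 * B ^ 2) (hc : ∀ j, |c j| ≤ 6 * B)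
    (hg : ∀ j, |g j| ≤ B) (hh : ∀ j, |h j| ≤ B) (hA0 : A 0 + A 1 + A 2 = 0)
    (hh0 : h 0 + h 1 + h 2 = 0) (hgm : m ≤ g 0 ^ 2 + g 1 ^ 2 + g 2 ^ 2)
    {S : Fin 3 → ℝ} (hS : ∀ j, S j = t * A j - 8 * K * t ^ 2 * (g j ^ 2 + U * h j) * Q +
      t * (-4 * K * t ^ 2 * U * g j * Q) * c j + t ^ 2 * C j) :
    e 0 * S 0 + e 1 * S 1 + e 2 * S 2 ≤ 0 := by
  have hh1 := fun j => summand hB hK ht hQ1 hQ2 hU (he j) htB (hA j) (hC j) (hc j) (hg j) (hh j)
  rw [hS, hS, hS]
  have h0 := hh1 0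
  have h1 := hh1 1
  have h2 := hh1 2
  have e1 : t * A 0 + t * A 1 + t * A 2 = 0 := by rw [← mul_add, ← mul_add, hA0, mul_zero]
  have e2 : 8 * K * t ^ 2 * Q * U * h 0 + 8 * K * t ^ 2 * Q * U * h 1 + 8 * K * t ^ 2 * Q * U * h 2 = 0 := by
    rw [← mul_add, ← mul_add, hh0, mul_zero]
  have e3 : 4 * K * t ^ 2 * m ≤ 4 * K * t ^ 2 * g 0 ^ 2 + 4 * K * t ^ 2 * g 1 ^ 2 + 4 * K * t ^ 2 * g 2 ^ 2 := by
    rw [← mul_add, ← mul_add]
    exact mul_le_mul_of_nonneg_left hgm (by positivity)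
  have e4 : 200 * B ^ 2 * t ^ 2 ≤ 4 * K * t ^ 2 * m := by
    have : 0 ≤ t ^ 2 := by positivity
    nlinarith [mul_le_mul_of_nonneg_right hKm this]
  have e5 : 408 * K * B ^ 2 * t ^ 3 ≤ 136 * B ^ 2 * t ^ 2 := by
    have : 0 ≤ 136 * B ^ 2 * t ^ 2 := by positivity
    nlinarith [mul_le_mul_of_nonneg_left htK this]
  have e6 : 0 ≤ B ^ 2 * t ^ 2 := by positivity
  linarith

/-! ### the derivatives of the exponents -/

/-- partial derivatives commute -/
lemma pd_comm {G : E → ℝ} (hG : ContDiff ℝ ∞ G) (i j : Fin 3) : pd i (pd j G) = pd j (pd i G) := by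
  funext x
  have hs : IsSymmSndFDerivAt ℝ G x := by
    apply (hG.contDiffAt (x := x)).isSymmSndFDerivAt
    simp only [minSmoothness_of_isRCLikeNormedField]
    exact WithTop.coe_le_coe.2 (le_top : (2 : ℕ∞) ≤ ⊤)
  have hd : DifferentiableAt ℝ (fderiv ℝ G) x := by
    have : ContDiff ℝ ∞ (fderiv ℝ G) := hG.fderiv_right (by simp)
    exact (this.differentiable (by simp)) x
  have e : ∀ i j : Fin 3, pd i (pd j G) x
      = fderiv ℝ (fderiv ℝ G) x (EuclideanSpace.single i 1) (EuclideanSpace.single j 1) := by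
    intro i j
    unfold pd
    rw [fderiv_clm_apply hd (by fun_prop)]
    simp
  rw [e, e]
  exact hs _ _

lemma aa0 (F : E → ℝ) : aa F 0 = fun x => -(1 / 2 : ℝ) * (pd 0 (pd 0 F) x + pd 1 (pd 1 F) x) := by
  funext x; simp [aa]; ring

lemma aa1 (F : E → ℝ) : aa F 1 = fun x => (1 / 2 : ℝ) * (pd 0 (pd 0 F) x + pd 1 (pd 1 F) x) := by
  funext x; simp [aa]; ring

lemma aa2 (F : E → ℝ) : aa F 2 = fun x => (1 / 2 : ℝ) * (pd 1 (pd 1 F) x - pd 0 (pd 0 F) x) := by
  funext x; simp [aa]; ring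

lemma aa_smooth {F : E → ℝ} (hF : ContDiff ℝ ∞ F) (i : Fin 3) : ContDiff ℝ ∞ (aa F i) := by
  have h0 := pd_smooth' (pd_smooth' hF 0) 0
  have h1 := pd_smooth' (pd_smooth' hF 1) 1
  fin_cases i
  · show ContDiff ℝ ∞ (aa F 0)
    rw [aa0]; exact contDiff_const.mul (h0.add h1)
  · show ContDiff ℝ ∞ (aa F 1)
    rw [aa1]; exact contDiff_const.mul (h0.add h1)
  · show ContDiff ℝ ∞ (aa F 2)
    rw [aa2]; exact contDiff_const.mul (h1.sub h0)

lemma dif {G : E → ℝ} (hG : ContDiff ℝ ∞ G) (x : E) : DifferentiableAt ℝ G x :=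
  (hG.differentiable (by simp)) x

lemma pd2_lin {G H : E → ℝ} (hG : ContDiff ℝ ∞ G) (hH : ContDiff ℝ ∞ H) (c : ℝ) (j : Fin 3) (x : E) :
    pd j (pd j (fun y => c * (G y + H y))) x = c * (pd j (pd j G) x + pd j (pd j H) x) := by
  have h1 : pd j (fun y => c * (G y + H y)) = fun y => c * (pd j G y + pd j H y) := by
    funext y
    rw [pd_const_mul (f := fun y => G y + H y) j c ((dif hG y).add (dif hH y)), pd_add j (dif hG y) (dif hH y)]
  rw [h1]
  rw [pd_const_mul (f := fun y => pd j G y + pd j H y) j c ((dif (pd_smooth' hG j) x).add (dif (pd_smooth' hH j) x)),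
    pd_add j (dif (pd_smooth' hG j) x) (dif (pd_smooth' hH j) x)]

lemma pd2_lin' {G H : E → ℝ} (hG : ContDiff ℝ ∞ G) (hH : ContDiff ℝ ∞ H) (c : ℝ) (j : Fin 3) (x : E) :
    pd j (pd j (fun y => c * (G y - H y))) x = c * (pd j (pd j G) x - pd j (pd j H) x) := by
  have h1 : pd j (fun y => c * (G y - H y)) = fun y => c * (pd j G y - pd j H y) := by
    funext y
    rw [pd_const_mul (f := fun y => G y - H y) j c ((dif hG y).sub (dif hH y)), pd_sub j (dif hG y) (dif hH y)]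
  rw [h1]
  rw [pd_const_mul (f := fun y => pd j G y - pd j H y) j c ((dif (pd_smooth' hG j) x).sub (dif (pd_smooth' hH j) x)),
    pd_sub j (dif (pd_smooth' hG j) x) (dif (pd_smooth' hH j) x)]

/-- the linear part of the scalar curvature vanishes -/
lemma key {F : E → ℝ} (hF : ContDiff ℝ ∞ F) (x : E) :
    (pd 0 (pd 0 (aa F 1)) x + pd 0 (pd 0 (aa F 2)) x) +
    (pd 1 (pd 1 (aa F 0)) x + pd 1 (pd 1 (aa F 2)) x) +
    (pd 2 (pd 2 (aa F 0)) x + pd 2 (pd 2 (aa F 1)) x) = 0 := by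
  have h0 := pd_smooth' (pd_smooth' hF 0) 0
  have h1 := pd_smooth' (pd_smooth' hF 1) 1
  have hc : pd 0 (pd 0 (pd 1 (pd 1 F))) = pd 1 (pd 1 (pd 0 (pd 0 F))) := by
    rw [pd_comm (pd_smooth' hF 1) 0 1, pd_comm hF 0 1,
      pd_comm (pd_smooth' (pd_smooth' hF 0) 1) 0 1, pd_comm (pd_smooth' hF 0) 0 1]
  have hcx := congrFun hc x
  rw [aa0, aa1, aa2, pd2_lin h0 h1, pd2_lin h0 h1, pd2_lin h0 h1, pd2_lin h0 h1, pd2_lin' h1 h0,
    pd2_lin' h1 h0, hcx]
  ring

lemma key' {F : E → ℝ} (hF : ContDiff ℝ ∞ F) (x : E) :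
    (pd 0 (pd 0 (aa F (0 + 1))) x + pd 0 (pd 0 (aa F (0 + 2))) x) +
    (pd 1 (pd 1 (aa F (1 + 1))) x + pd 1 (pd 1 (aa F (1 + 2))) x) +
    (pd 2 (pd 2 (aa F (2 + 1))) x + pd 2 (pd 2 (aa F (2 + 2))) x) = 0 := by
  have e1 : (1 : Fin 3) + 1 = 2 := rfl
  have e2 : (1 : Fin 3) + 2 = 0 := rfl
  have e3 : (2 : Fin 3) + 1 = 0 := rfl
  have e4 : (2 : Fin 3) + 2 = 1 := rfl
  have := key hF x
  rw [e1, e2, e3, e4, zero_add, zero_add]
  linarith

lemma abs_mul_le {a b B : ℝ} (ha : |a| ≤ B) (hb : |b| ≤ B) : |a * b| ≤ B ^ 2 := by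
  rw [abs_mul, sq]
  exact mul_le_mul ha hb (abs_nonneg _) ((abs_nonneg _).trans ha)

/-- bounds for the conformal factor -/
lemma ph_bound (hP : S_POT) {K t : ℝ} (hK : 0 < K) (hKt : K * t ^ 2 < 1 / 2) {x : E} (hx : 3 < s x) :
    1 / 2 < ph K t x ∧ ph K t x ≤ 1 := by
  have h1 := hP.2.2.2.2.2 x hx
  have h2 : u x ^ 2 ≤ 1 := by
    rw [sq_le_one_iff_abs_le_one]; exact h1.le
  have h3 : 0 ≤ K * t ^ 2 := by positivity
  have h4 : 0 ≤ u x ^ 2 := by positivity
  unfold ph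
  constructor
  · nlinarith
  · nlinarith

lemma diff_u (hP : S_POT) {x : E} (hx : 3 < s x) : DifferentiableAt ℝ u x :=
  diff_of (open_s 2) hP.1 (show 2 < s x by linarith)

lemma diff_pdu (hP : S_POT) {x : E} (hx : 3 < s x) (j : Fin 3) : DifferentiableAt ℝ (pd j u) x :=
  diff_of (open_s 2) (pd_smooth (open_s 2) hP.1 j) (show 2 < s x by linarith)

lemma pd_ph (hP : S_POT) {K t : ℝ} {x : E} (hx : 3 < s x) (j : Fin 3) :
    pd j (ph K t) x = -2 * K * t ^ 2 * (u x * pd j u x) := by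
  have hu := diff_u hP hx
  have e : ph K t = fun y => 1 - K * t ^ 2 * (u y * u y) := by
    funext y; unfold ph; ring
  have hm : DifferentiableAt ℝ (fun y => u y * u y) x := hu.mul hu
  rw [e, pd_sub j (differentiableAt_const _) (hm.const_mul _), pd_const,
    pd_const_mul (f := fun y => u y * u y) j _ hm, pd_mul j hu hu]
  ring

lemma diff_ph (hP : S_POT) {K t : ℝ} {x : E} (hx : 3 < s x) : DifferentiableAt ℝ (ph K t) x := by
  have hu := diff_u hP hx
  have e : ph K t = fun y => 1 - K * t ^ 2 * (u y ^ 2) := by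
    funext y; unfold ph; ring
  rw [e]
  exact (differentiableAt_const _).sub (DifferentiableAt.const_mul (hu.pow 2) _)

/-- first derivatives of the exponents -/
lemma pd_al (hP : S_POT) {F : E → ℝ} (hF : ContDiff ℝ ∞ F) {K t : ℝ} (hK : 0 < K)
    (hKt : K * t ^ 2 < 1 / 2) {x : E} (hx : 3 < s x) (i j : Fin 3) :
    pd j (al F K t i) x = t * pd j (aa F i) x + (-4 * K * t ^ 2) * (u x * pd j u x * (ph K t x)⁻¹) := by
  have hph := (ph_bound hP hK hKt hx).1
  have h0 : ph K t x ≠ 0 := by linarith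
  have ha := dif (aa_smooth hF i) x
  have hd := diff_ph hP (K := K) (t := t) hx
  have hl : DifferentiableAt ℝ (fun y => Real.log (ph K t y)) x := hd.log h0
  have e : al F K t i = fun y => t * aa F i y + 2 * Real.log (ph K t y) := rfl
  rw [e, pd_add j (ha.const_mul t) (hl.const_mul 2), pd_const_mul j t ha,
    pd_const_mul (f := fun y => Real.log (ph K t y)) j 2 hl, pd_log j hd h0, pd_ph hP hx]
  ring

/-- second derivatives of the exponents -/
lemma pd2_al (hP : S_POT) {F : E → ℝ} (hF : ContDiff ℝ ∞ F) {K t : ℝ} (hK : 0 < K)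
    (hKt : K * t ^ 2 < 1 / 2) {x : E} (hx : 3 < s x) (i j : Fin 3) :
    pd j (pd j (al F K t i)) x = t * pd j (pd j (aa F i)) x + (-4 * K * t ^ 2) *
      ((pd j u x ^ 2 + u x * pd j (pd j u) x) * (ph K t x)⁻¹ +
        2 * K * t ^ 2 * (u x * pd j u x * (ph K t x)⁻¹) ^ 2) := by
  have hph := (ph_bound hP hK hKt hx).1
  have h0 : ph K t x ≠ 0 := by linarith
  have ha := dif (pd_smooth' (aa_smooth hF i) j) x
  have hd := diff_ph hP (K := K) (t := t) hx
  have hu := diff_u hP hx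
  have hpu := diff_pdu hP hx j
  have hinv : DifferentiableAt ℝ (fun y => (ph K t y)⁻¹) x := hd.inv h0
  have h1 : Set.EqOn (pd j (al F K t i)) (fun y => t * pd j (aa F i) y +
      (-4 * K * t ^ 2) * (u y * pd j u y * (ph K t y)⁻¹)) {y | 3 < s y} := fun y hy =>
    pd_al hP hF hK hKt hy i j
  have hpi : pd j (fun y => (ph K t y)⁻¹) x = -(ph K t x ^ 2)⁻¹ * pd j (ph K t) x :=
    pd_comp j hd (hasDerivAt_inv h0)
  have hm2 : DifferentiableAt ℝ (fun y => u y * pd j u y) x := hu.mul hpu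
  have hm3 : DifferentiableAt ℝ (fun y => u y * pd j u y * (ph K t y)⁻¹) x := hm2.mul hinv
  rw [pd_congr_set (open_s 3) h1 hx, pd_add j (ha.const_mul t) (hm3.const_mul _),
    pd_const_mul j t ha,
    pd_const_mul (f := fun y => u y * pd j u y * (ph K t y)⁻¹) j _ hm3,
    pd_mul (f := fun y => u y * pd j u y) j hm2 hinv, pd_mul j hu hpu, hpi, pd_ph hP hx]
  field_simp
  ring

/-- the bracket in the scalar curvature -/
def Br (α : Fin 3 → E → ℝ) (x : E) (j : Fin 3) : ℝ :=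
  pd j (pd j (α (j + 1))) x + pd j (pd j (α (j + 2))) x + pd j (α (j + 1)) x ^ 2 +
    pd j (α (j + 2)) x ^ 2 + pd j (α (j + 1)) x * pd j (α (j + 2)) x -
    pd j (α j) x * (pd j (α (j + 1)) x + pd j (α (j + 2)) x)

lemma Rd_eq (F : E → ℝ) (K t : ℝ) (x : E) : Rd (al F K t) x = -2 * (Real.exp (-4 * Real.log (ph K t x)) *
    (Real.exp (-2 * t * aa F 0 x) * Br (al F K t) x 0 + Real.exp (-2 * t * aa F 1 x) * Br (al F K t) x 1
      + Real.exp (-2 * t * aa F 2 x) * Br (al F K t) x 2)) := by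
  have e : ∀ i, Real.exp (-2 * al F K t i x)
      = Real.exp (-4 * Real.log (ph K t x)) * Real.exp (-2 * t * aa F i x) := by
    intro i
    rw [← Real.exp_add]
    congr 1
    unfold al
    ring
  have e1 : (1 : Fin 3) + 1 = 2 := rfl
  have e2 : (1 : Fin 3) + 2 = 0 := rfl
  have e3 : (2 : Fin 3) + 1 = 0 := rfl
  have e4 : (2 : Fin 3) + 2 = 1 := rfl
  unfold Rd Br
  rw [e, e, e, e1, e2, e3, e4, zero_add, zero_add]
  ring

lemma exists_bound {A : Set E} (hA : IsCompact A) {f : E → ℝ} (hf : ContinuousOn f A) :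
    ∃ C : ℝ, 1 ≤ C ∧ ∀ x ∈ A, f x ≤ C := by
  obtain ⟨C, hC⟩ := hA.exists_bound_of_continuousOn hf
  exact ⟨max C 1, le_max_right _ _, fun x hx => ((le_abs_self _).trans (hC x hx)).trans (le_max_left _ _)⟩

/-- the sum of the absolute values of all functions which have to be bounded -/
def Phi (F : E → ℝ) (x : E) : ℝ :=
  (∑ i, |aa F i x|) + (∑ i, ∑ j, |pd j (aa F i) x|) + (∑ i, ∑ j, |pd j (pd j (aa F i)) x|) +
    (∑ j, |pd j u x|) + ∑ j, |pd j (pd j u) x|

lemma Phi_cont (hP : S_POT) {F : E → ℝ} (hF : ContDiff ℝ ∞ F) {A : Set E} (hA : A ⊆ {x | 4 < s x}) :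
    ContinuousOn (Phi F) A := by
  have hsub : A ⊆ {x | 2 < s x} := fun x hx => by
    have := hA hx
    simp only [Set.mem_ofPred_eq] at this ⊢
    linarith
  have h1 : ∀ i, Continuous (aa F i) := fun i => (aa_smooth hF i).continuous
  have h2 : ∀ i j, Continuous (pd j (aa F i)) := fun i j => (pd_smooth' (aa_smooth hF i) j).continuous
  have h3 : ∀ i j, Continuous (pd j (pd j (aa F i))) := fun i j =>
    (pd_smooth' (pd_smooth' (aa_smooth hF i) j) j).continuous
  have h4 : ∀ j, ContinuousOn (pd j u) A := fun j =>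
    ((pd_smooth (open_s 2) hP.1 j).continuousOn).mono hsub
  have h5 : ∀ j, ContinuousOn (pd j (pd j u)) A := fun j =>
    ((pd_smooth (open_s 2) (pd_smooth (open_s 2) hP.1 j) j).continuousOn).mono hsub
  unfold Phi
  refine ContinuousOn.add (ContinuousOn.add (ContinuousOn.add (ContinuousOn.add ?_ ?_) ?_) ?_) ?_
  · exact continuousOn_finsetSum _ fun i _ => (h1 i).continuousOn.abs
  · exact continuousOn_finsetSum _ fun i _ => continuousOn_finsetSum _ fun j _ =>
      (h2 i j).continuousOn.abs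
  · exact continuousOn_finsetSum _ fun i _ => continuousOn_finsetSum _ fun j _ =>
      (h3 i j).continuousOn.abs
  · exact continuousOn_finsetSum _ fun j _ => (h4 j).abs
  · exact continuousOn_finsetSum _ fun j _ => (h5 j).abs

lemma Phi_le (F : E → ℝ) (x : E) : (∀ i, |aa F i x| ≤ Phi F x) ∧ (∀ i j, |pd j (aa F i) x| ≤ Phi F x) ∧
    (∀ i j, |pd j (pd j (aa F i)) x| ≤ Phi F x) ∧ (∀ j, |pd j u x| ≤ Phi F x) ∧
    ∀ j, |pd j (pd j u) x| ≤ Phi F x := by
  have n1 : 0 ≤ ∑ i, |aa F i x| := Finset.sum_nonneg fun i _ => abs_nonneg _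
  have n2 : 0 ≤ ∑ i, ∑ j, |pd j (aa F i) x| :=
    Finset.sum_nonneg fun i _ => Finset.sum_nonneg fun j _ => abs_nonneg _
  have n3 : 0 ≤ ∑ i, ∑ j, |pd j (pd j (aa F i)) x| :=
    Finset.sum_nonneg fun i _ => Finset.sum_nonneg fun j _ => abs_nonneg _
  have n4 : 0 ≤ ∑ j, |pd j u x| := Finset.sum_nonneg fun j _ => abs_nonneg _
  have n5 : 0 ≤ ∑ j, |pd j (pd j u) x| := Finset.sum_nonneg fun j _ => abs_nonneg _
  unfold Phi
  refine ⟨fun i => ?_, fun i j => ?_, fun i j => ?_, fun j => ?_, fun j => ?_⟩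
  · have := Finset.single_le_sum (f := fun i => |aa F i x|) (fun i _ => abs_nonneg _) (Finset.mem_univ i)
    linarith
  · have h1 := Finset.single_le_sum (f := fun j => |pd j (aa F i) x|) (fun i _ => abs_nonneg _)
      (Finset.mem_univ j)
    have h2 := Finset.single_le_sum (f := fun i => ∑ j, |pd j (aa F i) x|)
      (fun i _ => Finset.sum_nonneg fun j _ => abs_nonneg _) (Finset.mem_univ i)
    linarith
  · have h1 := Finset.single_le_sum (f := fun j => |pd j (pd j (aa F i)) x|) (fun i _ => abs_nonneg _)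
      (Finset.mem_univ j)
    have h2 := Finset.single_le_sum (f := fun i => ∑ j, |pd j (pd j (aa F i)) x|)
      (fun i _ => Finset.sum_nonneg fun j _ => abs_nonneg _) (Finset.mem_univ i)
    linarith
  · have := Finset.single_le_sum (f := fun j => |pd j u x|) (fun i _ => abs_nonneg _) (Finset.mem_univ j)
    linarith
  · have := Finset.single_le_sum (f := fun j => |pd j (pd j u) x|) (fun i _ => abs_nonneg _)
      (Finset.mem_univ j)
    linarith

/-- the scalar curvature is not negative -/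
theorem rpos : S_RPOS := by
  intro hP hO F hF
  obtain ⟨hFs, hFc, hFt⟩ := hF
  have hcomp : IsCompact (tsupport F) := hFc.isCompact
  obtain ⟨B, hB1, hB⟩ := exists_bound hcomp (Phi_cont hP hFs hFt)
  have hsub : tsupport F ⊆ {x | 2 < s x} := fun x hx => by
    have := hFt hx
    simp only [Set.mem_ofPred_eq] at this ⊢
    linarith
  have hpos : ∀ x ∈ tsupport F, 0 < ∑ i, pd i u x ^ 2 := fun x hx => hP.2.2.1 x (hsub hx)
  have hcg : ContinuousOn (fun x => (∑ i, pd i u x ^ 2)⁻¹) (tsupport F) := by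
    apply ContinuousOn.inv₀
    · exact continuousOn_finsetSum _ fun i _ =>
        (((pd_smooth (open_s 2) hP.1 i).continuousOn).mono hsub).pow 2
    · exact fun x hx => (hpos x hx).ne'
  obtain ⟨M, hM1, hM⟩ := exists_bound hcomp hcg
  have hM0 : 0 < M := by linarith
  have hB0 : 0 < B := by linarith
  refine ⟨50 * B ^ 2 * M, by positivity, min (min (1 / (8 * B)) (1 / (3 * (50 * B ^ 2 * M)))) 1,
    by positivity, ?_⟩
  intro t ht htt
  set K : ℝ := 50 * B ^ 2 * M with hKdef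
  have hK : 0 < K := by positivity
  have ht1 : t < 1 := lt_of_lt_of_le htt (min_le_right _ _)
  have ht2 : t < 1 / (8 * B) := lt_of_lt_of_le htt ((min_le_left _ _).trans (min_le_left _ _))
  have ht3 : t < 1 / (3 * K) := lt_of_lt_of_le htt ((min_le_left _ _).trans (min_le_right _ _))
  have htB : 8 * t * B ≤ 1 := by
    rw [lt_div_iff₀ (by positivity)] at ht2
    linarith
  have htK : 3 * K * t ≤ 1 := by
    rw [lt_div_iff₀ (by positivity)] at ht3
    linarith
  have hKt : K * t ^ 2 < 1 / 2 := by nlinarith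
  refine ⟨hKt, fun x hx => ?_⟩
  by_cases hxs : x ∈ tsupport F
  swap
  · have h3 : 3 < s x := by
      have : 4 ≤ s x := hx
      linarith
    have hph := (ph_bound hP hK hKt h3).1
    have hph0 : 0 < ph K t x := by linarith
    rw [hO hP F K t hK hKt x hx hxs]
    have : 0 ≤ ∑ i, pd i u x ^ 2 := Finset.sum_nonneg fun i _ => sq_nonneg _
    positivity
  · have h4 : 4 < s x := hFt hxs
    have h3 : 3 < s x := by linarith
    have hph := ph_bound hP hK hKt h3
    have hph0 : 0 < ph K t x := by linarith [hph.1]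
    obtain ⟨b1, b2, b3, b4, b5⟩ := Phi_le F x
    have hBx := hB x hxs
    have hU : |u x| ≤ 1 := (hP.2.2.2.2.2 x h3).le
    rw [Rd_eq]
    have hQ1 : 1 ≤ (ph K t x)⁻¹ := (one_le_inv₀ hph0).2 hph.2
    have hQ2 : (ph K t x)⁻¹ ≤ 2 := by
      rw [inv_le_comm₀ hph0 (by norm_num)]
      linarith [hph.1]
    have hm : 50 * B ^ 2 ≤ K * M⁻¹ := by
      rw [hKdef]
      apply le_of_eq
      field_simp
    have hgm : M⁻¹ ≤ pd 0 u x ^ 2 + pd 1 u x ^ 2 + pd 2 u x ^ 2 := by
      have h5 := hM x hxs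
      have h6 := hpos x hxs
      rw [inv_le_comm₀ h6 hM0] at h5
      rwa [Fin.sum_univ_three] at h5
    have he : ∀ j, |Real.exp (-2 * t * aa F j x) - 1| ≤ 4 * t * B := by
      intro j
      have h5 : |-2 * t * aa F j x| ≤ 2 * t * B := by
        rw [abs_mul, abs_mul, abs_of_pos ht]
        have := (b1 j).trans hBx
        simp only [abs_neg, Nat.abs_ofNat]
        exact mul_le_mul_of_nonneg_left this (by positivity)
      have h6 : |-2 * t * aa F j x| ≤ 1 := by linarith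
      have h7 := Real.abs_exp_sub_one_le h6
      linarith
    have key1 := total (B := B) (K := K) (m := M⁻¹) (t := t) (Q := (ph K t x)⁻¹) (U := u x)
      (A := fun j => pd j (pd j (aa F (j + 1))) x + pd j (pd j (aa F (j + 2))) x)
      (C := fun j => pd j (aa F (j + 1)) x ^ 2 + pd j (aa F (j + 2)) x ^ 2 +
        pd j (aa F (j + 1)) x * pd j (aa F (j + 2)) x -
        pd j (aa F j) x * (pd j (aa F (j + 1)) x + pd j (aa F (j + 2)) x))
      (c := fun j => 2 * pd j (aa F (j + 1)) x + 2 * pd j (aa F (j + 2)) x - 2 * pd j (aa F j) x)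
      (g := fun j => pd j u x) (h := fun j => pd j (pd j u) x)
      (e := fun j => Real.exp (-2 * t * aa F j x)) hB1 hK ht hm htK hQ1 hQ2 hU he htB
      (fun j => by
        have h5 := (b3 (j + 1) j).trans hBx
        have h6 := (b3 (j + 2) j).trans hBx
        exact (abs_add_le _ _).trans (by linarith))
      (fun j => by
        have h5 := (b2 (j + 1) j).trans hBx
        have h6 := (b2 (j + 2) j).trans hBx
        have h7 := (b2 j j).trans hBx
        have q1 := abs_mul_le h5 h5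
        have q2 := abs_mul_le h6 h6
        have q3 := abs_mul_le h5 h6
        have q4 := abs_mul_le h7 h5
        have q5 := abs_mul_le h7 h6
        rw [abs_le] at q1 q2 q3 q4 q5 ⊢
        constructor <;> nlinarith [q1.1, q1.2, q2.1, q2.2, q3.1, q3.2, q4.1, q4.2, q5.1, q5.2])
      (fun j => by
        have h5 := (b2 (j + 1) j).trans hBx
        have h6 := (b2 (j + 2) j).trans hBx
        have h7 := (b2 j j).trans hBx
        rw [abs_le] at h5 h6 h7 ⊢
        constructor <;> linarith [h5.1, h5.2, h6.1, h6.2, h7.1, h7.2])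
      (fun j => (b4 j).trans hBx) (fun j => (b5 j).trans hBx) (key' hFs x)
      (by
        have := hP.2.1 x (hsub hxs)
        rwa [Fin.sum_univ_three] at this)
      hgm (S := Br (al F K t) x)
      (fun j => by
        unfold Br
        rw [pd2_al hP hFs hK hKt h3, pd2_al hP hFs hK hKt h3, pd_al hP hFs hK hKt h3,
          pd_al hP hFs hK hKt h3, pd_al hP hFs hK hKt h3]
        ring)
    have hE := Real.exp_pos (-4 * Real.log (ph K t x))
    nlinarith [mul_nonneg hE.le (neg_nonneg.2 key1)]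

end

end Pool.Agent.K1H61.MC
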